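import Mathlib
import Pool.Agent.K7.H63.EI.Slopes
import Pool.Agent.K7.H63.RT.Abs

/-! A third of the slopes in every long window of intercepts. -/

set_option autoImplicit false

namespace Pool.Agent.K7.H63.EI

open Finset Pool.Agent.K7.H63.TQ Pool.Agent.K7.H63.RT
open Pool.Agent.H732R3.BigQ (Big)

/-- there is an equation `a p - b q = c` with the constant `c` near `a B` -/
def Lin (C : ℕ) (B : ℤ) (a b : ℕ) : Prop :=
  ∃ c : ℤ, |c - a * B| ≤ C ∧ c ≠ 0 ∧ IsCoprime (a : ℤ) b ∧ IsCoprime (a : ℤ) c ∧ IsCoprime (b : ℤ) c ∧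
      ¬ (Odd a ∧ Odd b ∧ Odd c) ∧ Big {q : ℕ | q.Prime ∧ ∃ p : ℕ, p.Prime ∧ (a : ℤ) * p - b * q = c}

theorem line_red {C : ℕ} {B : ℤ} {d a b : ℕ} (hd : 1 ≤ d) (ha : 1 ≤ a) (hab : Nat.Coprime a b)
    (h : Line C B (d * a) (d * b)) : Lin C B a b := by
  obtain ⟨a', b', c, h1, h2, h3, h4, h5, h6, h7, h8, h9, h10⟩ := h
  have h11 : a' * b = b' * a := by
    apply Nat.eq_of_mul_eq_mul_left hd
    calc d * (a' * b) = a' * (d * b) := by ring
      _ = b' * (d * a) := h3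
      _ = d * (b' * a) := by ring
  have h5' : Nat.Coprime a' b' := Nat.isCoprime_iff_coprime.1 h5
  have h12 : a' ∣ a := by
    apply h5'.dvd_of_dvd_mul_left
    exact ⟨b, h11.symm⟩
  have h13 : a ∣ a' := by
    apply hab.dvd_of_dvd_mul_right
    exact ⟨b', by rw [h11]; ring⟩
  have h14 : a' = a := Nat.dvd_antisymm h12 h13
  subst h14
  have h15 : b' = b := by
    apply Nat.eq_of_mul_eq_mul_left ha
    rw [mul_comm a' b', ← h11]
  subst h15
  exact ⟨c, h9, h4, h5, h6, h7, h8, h10⟩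

/-- a constant for all quadruples of slopes -/
theorem four {K : ℕ} (hK : 1 ≤ K) (hQ : MT 4 K (fun S => 2 ≤ S.card)) (X : ℕ) : ∃ C : ℕ, 1 ≤ C ∧
    ∀ m : Fin 4 → ℕ, (∀ i, 1 ≤ m i ∧ m i ≤ X) → ∀ B : ℤ, ∃ i j : Fin 4, i < j ∧ Line C B (m i) (m j) := by
  classical
  have h1 : ∀ m : Fin 4 → ℕ, ∃ C : ℕ, (∀ i, 1 ≤ m i) → ∀ B : ℤ, ∃ i j : Fin 4, i < j ∧ Line C B (m i) (m j) := by
    intro m
    by_cases hm : ∀ i, 1 ≤ m i
    · obtain ⟨C, hC⟩ := slopesT (by norm_num) hK _ hQ m hm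
      refine ⟨C, fun _ B => ?_⟩
      obtain ⟨S, hS, h⟩ := hC B
      obtain ⟨x, hx, y, hy, hxy⟩ := Finset.one_lt_card.1 (by omega : 1 < S.card)
      rcases lt_or_gt_of_ne hxy with h2 | h2
      · exact ⟨x, y, h2, h x hx y hy h2⟩
      · exact ⟨y, x, h2, h y hy x hx h2⟩
    · exact ⟨0, fun h => absurd h hm⟩
  choose Cf hCf using h1
  refine ⟨(Fintype.piFinset (fun _ : Fin 4 => Icc 1 X)).sup Cf + 1, by omega, fun m hm B => ?_⟩
  obtain ⟨i, j, hij, h⟩ := hCf m (fun i => (hm i).1) B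
  refine ⟨i, j, hij, h.mono ?_⟩
  have h2 : m ∈ Fintype.piFinset (fun _ : Fin 4 => Icc 1 X) :=
    Fintype.mem_piFinset.2 fun i => mem_Icc.2 (hm i)
  have h3 := Finset.le_sup (f := Cf) h2
  omega

/-- the two orders -/
structure Ord2 (r : ℕ → ℕ → Prop) : Prop where
  scale : ∀ d a b : ℕ, 1 ≤ d → (r (d * a) (d * b) ↔ r a b)
  asymm : ∀ {a b : ℕ}, r a b → r b a → False
  sort : ∀ m : Fin 4 → ℕ, Function.Injective m → ∃ σ : Equiv.Perm (Fin 4), ∀ i j, i < j → r (m (σ i)) (m (σ j))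

theorem ord_lt : Ord2 (fun a b => a < b) where
  scale := by
    intro d a b hd
    exact Nat.mul_lt_mul_left (by omega)
  asymm := fun h h' => by omega
  sort := by
    intro m hm
    refine ⟨Tuple.sort m, fun i j hij => ?_⟩
    have h1 := Tuple.monotone_sort m hij.le
    refine lt_of_le_of_ne h1 fun h => ?_
    exact hij.ne ((Tuple.sort m).injective (hm h))

theorem ord_gt : Ord2 (fun a b => b < a) where
  scale := by
    intro d a b hd
    exact Nat.mul_lt_mul_left (by omega)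
  asymm := fun h h' => by omega
  sort := by
    intro m hm
    refine ⟨Tuple.sort (fun i => -(m i : ℤ)), fun i j hij => ?_⟩
    have h1 := Tuple.monotone_sort (fun i => -(m i : ℤ)) hij.le
    simp only [Function.comp] at h1
    have h2 : m (Tuple.sort (fun i => -(m i : ℤ)) j) ≤ m (Tuple.sort (fun i => -(m i : ℤ)) i) := by
      have : (m (Tuple.sort (fun i => -(m i : ℤ)) j) : ℤ) ≤ m (Tuple.sort (fun i => -(m i : ℤ)) i) := by linarith
      exact_mod_cast this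
    refine lt_of_le_of_ne h2 fun h => ?_
    exact hij.ne ((Tuple.sort (fun i => -(m i : ℤ))).injective (hm h.symm))

/-- exchange of the two integers -/
theorem swap_sum (k X : ℕ) (f : ℕ → ℕ → ℝ) : ∑ x ∈ CP k X, f x.1 x.2 = ∑ x ∈ CP k X, f x.2 x.1 := by
  refine Finset.sum_nbij' (fun x => (x.2, x.1)) (fun x => (x.2, x.1)) ?_ ?_ ?_ ?_ ?_
  · intro x hx
    obtain ⟨⟨h1, h2⟩, h3⟩ := mem_CP.1 hx
    exact mem_CP.2 ⟨⟨h2, h1⟩, h3.symm⟩
  · intro x hx
    obtain ⟨⟨h1, h2⟩, h3⟩ := mem_CP.1 hx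
    exact mem_CP.2 ⟨⟨h2, h1⟩, h3.symm⟩
  · intro x _; rfl
  · intro x _; rfl
  · intro x _; rfl

open Classical in
/-- the weight of the coprime pairs with a property -/
noncomputable def wt (X : ℕ) (P : ℕ → ℕ → Prop) : ℝ :=
  ∑ x ∈ CP 1 X, if P x.1 x.2 then 1 / ((x.1 : ℝ) * x.2) else 0

theorem wt_nonneg (X : ℕ) (P : ℕ → ℕ → Prop) : 0 ≤ wt X P :=
  Finset.sum_nonneg fun _ _ => by split_ifs <;> positivity

open Classical in
/-- a third of the slopes near every intercept -/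
theorem third_at {K : ℕ} (hK : 1 ≤ K) (hQ : MT 4 K (fun S => 2 ≤ S.card)) (ε : ℝ) (hε : 0 < ε) (hε1 : ε ≤ 1 / 3) :
    ∃ X₀ : ℕ, ∀ X : ℕ, X₀ ≤ X → ∃ C : ℕ, 1 ≤ C ∧ ∀ r : ℕ → ℕ → Prop, Ord2 r → ∀ B : ℤ,
    (1 / 3 - ε) * wt X r ≤ wt X (fun a b => r a b ∧ Lin C B a b) := by
  obtain ⟨C0, hC0, H⟩ := third_abs 1 le_rfl ε hε hε1
  obtain ⟨X₀, hX₀⟩ := Filter.eventually_atTop.1 ((W_tendsto 1 le_rfl).eventually_ge_atTop C0)
  refine ⟨X₀, fun X hX => ?_⟩
  obtain ⟨C, hC, hfour⟩ := four hK hQ X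
  refine ⟨C, hC, fun r hr B => ?_⟩
  obtain ⟨R, hR⟩ : ∃ R : ℤ × ℤ → ℤ × ℤ → Prop, R = fun x y =>
    (r x.1.toNat y.1.toNat ∧ Line C B x.1.toNat y.1.toNat) ∨
      (r y.1.toNat x.1.toNat ∧ Line C B y.1.toNat x.1.toNat) := ⟨_, rfl⟩
  have h1 := H {f | ∃ m : ℕ, (1 ≤ m ∧ m ≤ X) ∧ f = ((m : ℤ), (1 : ℤ))} R (by
      intro x y hxy
      rw [hR] at hxy ⊢
      exact hxy.symm) (by
      intro A hA hinj _
      choose m hm1 hm2 using hA
      obtain ⟨σ, hσ⟩ := hr.sort (fun g => m g 0) (by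
        intro g g' hgg
        have h2 : A g 0 = A g' 0 := by
          rw [hm2 g 0, hm2 g' 0]
          simp only at hgg
          rw [hgg]
        exact congrArg Prod.fst (hinj (a₁ := (g, (0 : Fin 1))) (a₂ := (g', (0 : Fin 1))) h2))
      obtain ⟨i, j, hij, hL⟩ := hfour (fun g => m (σ g) 0) (fun g => hm1 _ _) B
      refine ⟨σ i, σ j, 0, 0, fun h => hij.ne (σ.injective h), ?_⟩
      rw [hR, hm2 (σ i) 0, hm2 (σ j) 0]
      left
      simp only [Int.toNat_natCast]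
      exact ⟨hσ i j hij, hL⟩) 1 X (by
      intro m h1 h2
      exact ⟨m, ⟨h1, h2⟩, rfl⟩) (hX₀ X hX)
    (fun a b => (r a b ∧ Lin C B a b) ∨ (r b a ∧ Lin C B b a)) (by
      intro d a b hd ha hb _ _ hab _ hRR
      rw [hR] at hRR
      simp only [Int.toNat_natCast] at hRR
      rcases hRR with ⟨h2, h3⟩ | ⟨h2, h3⟩
      · left
        exact ⟨(hr.scale d a b hd).1 h2, line_red hd ha hab h3⟩
      · right
        exact ⟨(hr.scale d b a hd).1 h2, line_red hd hb hab.symm h3⟩)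
  have e1 : (1 : ℤ).natAbs = 1 := rfl
  rw [e1] at h1
  -- both sides
  have h2 : 2 * wt X r ≤ T 1 X := by
    classical
    have h3 : wt X r = ∑ x ∈ CP 1 X, (if r x.2 x.1 then 1 / ((x.2 : ℝ) * x.1) else 0) :=
      swap_sum 1 X (fun a b => if r a b then 1 / ((a : ℝ) * b) else 0)
    have h4 : 2 * wt X r = ∑ x ∈ CP 1 X, ((if r x.1 x.2 then 1 / ((x.1 : ℝ) * x.2) else 0) +
        (if r x.2 x.1 then 1 / ((x.2 : ℝ) * x.1) else 0)) := by
      rw [Finset.sum_add_distrib, ← h3]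
      unfold wt
      ring
    rw [h4, T]
    apply Finset.sum_le_sum
    intro x _
    by_cases h5 : r x.1 x.2
    · have h6 : ¬ r x.2 x.1 := by
        intro h6
        exact hr.asymm h5 h6
      rw [if_pos h5, if_neg h6, add_zero]
    · rw [if_neg h5, zero_add]
      split_ifs
      · rw [mul_comm]
      · positivity
  obtain ⟨P, hP⟩ : ∃ P : ℕ → ℕ → Prop, P = fun a b => r a b ∧ Lin C B a b := ⟨_, rfl⟩
  have hPi : ∀ a b, (r a b ∧ Lin C B a b) ↔ P a b := fun a b => by rw [hP]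
  rw [← hP]
  have h3 : wt X P = ∑ x ∈ CP 1 X, (if P x.2 x.1 then 1 / ((x.2 : ℝ) * x.1) else 0) :=
    swap_sum 1 X (fun a b => if P a b then 1 / ((a : ℝ) * b) else 0)
  have h4 : 2 * wt X P = ∑ x ∈ CP 1 X, ((if P x.1 x.2 then 1 / ((x.1 : ℝ) * x.2) else 0) +
      (if P x.2 x.1 then 1 / ((x.2 : ℝ) * x.1) else 0)) := by
    rw [Finset.sum_add_distrib, ← h3]
    unfold wt
    ring
  have h5 : (1 / 3 - ε) * T 1 X ≤ 2 * wt X P := by
    refine h1.trans ?_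
    rw [h4, S]
    apply Finset.sum_le_sum
    intro x _
    have p1 : 0 ≤ (if P x.1 x.2 then 1 / ((x.1 : ℝ) * x.2) else 0) := by
      split_ifs <;> positivity
    have p2 : 0 ≤ (if P x.2 x.1 then 1 / ((x.2 : ℝ) * x.1) else 0) := by
      split_ifs <;> positivity
    simp only [hPi]
    by_cases h5 : x.1 ≠ x.2 ∧ (P x.1 x.2 ∨ P x.2 x.1)
    · rw [if_pos h5]
      rcases h5.2 with h6 | h6
      · rw [if_pos h6]
        linarith
      · rw [if_pos h6, mul_comm (x.1 : ℝ)]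
        rw [mul_comm (x.1 : ℝ)] at p1
        linarith
    · rw [if_neg h5]
      linarith
  have h6 : (1 / 3 - ε) * (2 * wt X r) ≤ (1 / 3 - ε) * T 1 X :=
    mul_le_mul_of_nonneg_left h2 (by linarith)
  linarith

end Pool.Agent.K7.H63.EI
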