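import Mathlib
import Pool.Agent.K7.H63.EI.Win

/-! A third of the slopes have a positive proportion of constants in every long window of intercepts. -/

set_option autoImplicit false

namespace Pool.Agent.K7.H63.EI

open Finset Pool.Agent.K7.H63.RT
open Pool.Agent.H732R3.BigQ (Big)

/-- a triple of the question with many solutions -/
def GC (a b : ℕ) (c : ℤ) : Prop :=
  c ≠ 0 ∧ IsCoprime (a : ℤ) b ∧ IsCoprime (a : ℤ) c ∧ IsCoprime (b : ℤ) c ∧
      ¬ (Odd a ∧ Odd b ∧ Odd c) ∧ Big {q : ℕ | q.Prime ∧ ∃ p : ℕ, p.Prime ∧ (a : ℤ) * p - b * q = c}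

open Classical in
/-- the constants in disjoint windows -/
theorem count_win (C : ℕ) (B : ℤ) (a b N L : ℕ) (ha : 1 ≤ a) (hN : (2 * C + 1) * N ≤ L) :
    (((range N).filter (fun k : ℕ => Lin C (B + (2 * C + 1) * k + C) a b)).card : ℝ) ≤
      (Set.ncard {c : ℤ | (a : ℤ) * B ≤ c ∧ c ≤ a * (B + L) ∧ GC a b c} : ℝ) := by
  rw [Nat.cast_le]
  have hfin : {c : ℤ | (a : ℤ) * B ≤ c ∧ c ≤ a * (B + L) ∧ GC a b c}.Finite :=
    (Set.finite_Icc ((a : ℤ) * B) (a * (B + L))).subset fun c hc => ⟨hc.1, hc.2.1⟩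
  have ha' : (1 : ℤ) ≤ a := by exact_mod_cast ha
  have h1 : ∀ k : ℕ, ∃ c : ℤ, Lin C (B + (2 * C + 1) * k + C) a b →
      (|c - a * (B + (2 * C + 1) * k + C)| ≤ C ∧ GC a b c) := by
    intro k
    by_cases h : Lin C (B + (2 * C + 1) * k + C) a b
    · obtain ⟨c, h2, h3⟩ := h
      exact ⟨c, fun _ => ⟨h2, h3⟩⟩
    · exact ⟨0, fun h' => absurd h' h⟩
  choose f hf using h1
  have hinj : Set.InjOn f (((range N).filter (fun k : ℕ => Lin C (B + (2 * C + 1) * k + C) a b) : Finset ℕ) : Set ℕ) := by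
    have key : ∀ k l : ℕ, Lin C (B + (2 * C + 1) * k + C) a b → Lin C (B + (2 * C + 1) * l + C) a b →
        f k = f l → k < l → False := by
      intro k l hk hl hkl hlt
      obtain ⟨h2, -⟩ := hf k hk
      obtain ⟨h3, -⟩ := hf l hl
      rw [hkl] at h2
      rw [abs_le] at h2 h3
      have h4 : (k : ℤ) + 1 ≤ l := by exact_mod_cast hlt
      have h5 : (0 : ℤ) ≤ C := Int.natCast_nonneg _
      have h6 : (2 * (C : ℤ) + 1) * 1 ≤ (2 * C + 1) * (l - k) :=
        mul_le_mul_of_nonneg_left (by linarith) (by linarith)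
      have h7 : 1 * ((2 * (C : ℤ) + 1) * (l - k)) ≤ a * ((2 * C + 1) * (l - k)) := by
        apply mul_le_mul_of_nonneg_right ha'
        linarith
      have h8 : (a : ℤ) * ((2 * C + 1) * (l - k)) =
        a * (B + (2 * C + 1) * l + C) - a * (B + (2 * C + 1) * k + C) := by ring
      linarith [h2.1, h2.2, h3.1, h3.2]
    intro k hk l hl hkl
    have hk' := (mem_filter.1 (mem_coe.1 hk)).2
    have hl' := (mem_filter.1 (mem_coe.1 hl)).2
    rcases lt_trichotomy k l with h | h | h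
    · exact (key k l hk' hl' hkl h).elim
    · exact h
    · exact (key l k hl' hk' hkl.symm h).elim
  rw [← Set.ncard_coe_finset, ← hinj.ncard_image]
  apply Set.ncard_le_ncard _ hfin
  rintro c ⟨k, hk, rfl⟩
  obtain ⟨hk1, hk2⟩ := mem_filter.1 (mem_coe.1 hk)
  obtain ⟨h2, h3⟩ := hf k hk2
  rw [abs_le] at h2
  have hkN : (k : ℤ) + 1 ≤ N := by exact_mod_cast mem_range.1 hk1
  have h5 : (0 : ℤ) ≤ C := Int.natCast_nonneg _
  have hNL : (2 * (C : ℤ) + 1) * N ≤ L := by exact_mod_cast hN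
  have hk0 : (0 : ℤ) ≤ k := Int.natCast_nonneg _
  refine ⟨?_, ?_, h3⟩
  · have h6 : 0 ≤ (a : ℤ) * ((2 * C + 1) * k) := by positivity
    have h7 : 1 * (C : ℤ) ≤ a * C := mul_le_mul_of_nonneg_right ha' h5
    have h8 : (a : ℤ) * (B + (2 * C + 1) * k + C) = a * B + a * ((2 * C + 1) * k) + a * C := by ring
    linarith [h2.1]
  · have h6 : (2 * (C : ℤ) + 1) * (k + 1) ≤ (2 * C + 1) * N := mul_le_mul_of_nonneg_left hkN (by linarith)
    have h7 : (a : ℤ) * ((2 * C + 1) * (k + 1)) ≤ a * L :=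
      mul_le_mul_of_nonneg_left (h6.trans hNL) (by linarith)
    have h8 : 1 * ((C : ℤ) + 1) ≤ a * (C + 1) := mul_le_mul_of_nonneg_right ha' (by linarith)
    have h9 : (a : ℤ) * (B + (2 * C + 1) * k + C) + a * (C + 1) = a * B + a * ((2 * C + 1) * (k + 1)) := by ring
    have h10 : (a : ℤ) * (B + L) = a * B + a * L := by ring
    linarith [h2.2]

open Classical in
/-- **every long window of intercepts** -/
theorem windows {K : ℕ} (hK : 1 ≤ K) (hQ : MT 4 K (fun S => 2 ≤ S.card)) (ε : ℝ) (hε : 0 < ε) (hε1 : ε ≤ 1 / 3) :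
    ∃ X₀ : ℕ, ∀ X : ℕ, X₀ ≤ X → ∃ δ : ℝ, 0 < δ ∧ ∃ L₀ : ℕ, ∀ r : ℕ → ℕ → Prop, Ord2 r → ∀ B : ℤ, ∀ L : ℕ, L₀ ≤ L →
    (1 / 3 - ε) * wt X r ≤ wt X (fun a b => r a b ∧
      δ * L ≤ (Set.ncard {c : ℤ | (a : ℤ) * B ≤ c ∧ c ≤ a * (B + L) ∧ GC a b c} : ℝ)) := by
  obtain ⟨X₀, H⟩ := third_at hK hQ (ε / 2) (by positivity) (by linarith)
  refine ⟨X₀, fun X hX => ?_⟩
  obtain ⟨C, hC, H⟩ := H X hX
  have hCr : (1 : ℝ) ≤ C := by exact_mod_cast hC
  refine ⟨ε / (4 * (2 * C + 1)), by positivity, 2 * C + 1, fun r hr B L hL => ?_⟩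
  obtain ⟨N, hN⟩ : ∃ N : ℕ, N = L / (2 * C + 1) := ⟨_, rfl⟩
  have hNL : (2 * C + 1) * N ≤ L := by rw [hN]; exact Nat.mul_div_le _ _
  have hN1 : 1 ≤ N := by
    rw [hN]
    exact Nat.div_pos hL (by omega)
  have hLN : (L : ℝ) ≤ 2 * (2 * C + 1) * N := by
    have h1 : L < (2 * C + 1) * (N + 1) := by
      rw [hN]
      have := Nat.lt_mul_div_succ L (show 0 < 2 * C + 1 by omega)
      exact this
    have h2 : (L : ℝ) ≤ (2 * C + 1) * (N + 1) := by exact_mod_cast h1.le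
    have h3 : (1 : ℝ) ≤ N := by exact_mod_cast hN1
    nlinarith
  have hNr : (0 : ℝ) < N := by exact_mod_cast hN1
  obtain ⟨n, hn⟩ : ∃ n : ℕ → ℕ → ℝ, n = fun a b =>
    (((range N).filter (fun k : ℕ => Lin C (B + (2 * C + 1) * k + C) a b)).card : ℝ) := ⟨_, rfl⟩
  have hn0 : ∀ a b, 0 ≤ n a b := fun a b => by rw [hn]; exact Nat.cast_nonneg _
  have hnN : ∀ a b, n a b ≤ N := by
    intro a b
    rw [hn]
    simp only
    rw [Nat.cast_le]
    exact (card_filter_le _ _).trans (by rw [card_range])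
  -- the sum over the windows
  have h1 : (N : ℝ) * ((1 / 3 - ε / 2) * wt X r) ≤ ∑ x ∈ CP 1 X, (if r x.1 x.2 then 1 / ((x.1 : ℝ) * x.2) else 0) * n x.1 x.2 := by
    have h2 : ∑ k ∈ range N, (1 / 3 - ε / 2) * wt X r ≤
        ∑ k ∈ range N, wt X (fun a b => r a b ∧ Lin C (B + (2 * C + 1) * k + C) a b) :=
      Finset.sum_le_sum fun k _ => H r hr _
    rw [Finset.sum_const, card_range, nsmul_eq_mul] at h2
    refine h2.trans (le_of_eq ?_)
    unfold wt
    rw [Finset.sum_comm]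
    apply Finset.sum_congr rfl
    intro x _
    rw [hn]
    simp only
    by_cases h3 : r x.1 x.2
    · simp only [h3, true_and, if_true]
      rw [Finset.sum_ite, Finset.sum_const_zero, add_zero, Finset.sum_const, nsmul_eq_mul, mul_comm]
    · simp only [h3, false_and, if_false, zero_mul, Finset.sum_const_zero]
  obtain ⟨P, hP⟩ : ∃ P : ℕ → ℕ → Prop, P = fun a b => r a b ∧ ε / 2 * N ≤ n a b := ⟨_, rfl⟩
  have h2 : ∑ x ∈ CP 1 X, (if r x.1 x.2 then 1 / ((x.1 : ℝ) * x.2) else 0) * n x.1 x.2 ≤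
      N * wt X P + ε / 2 * N * wt X r := by
    unfold wt
    rw [Finset.mul_sum, Finset.mul_sum, ← Finset.sum_add_distrib]
    apply Finset.sum_le_sum
    intro x _
    by_cases h3 : r x.1 x.2
    · rw [if_pos h3]
      have hw : 0 ≤ 1 / ((x.1 : ℝ) * x.2) := by positivity
      by_cases h4 : ε / 2 * N ≤ n x.1 x.2
      · have h5 : P x.1 x.2 := by rw [hP]; exact ⟨h3, h4⟩
        rw [if_pos h5]
        have h6 : 1 / ((x.1 : ℝ) * x.2) * n x.1 x.2 ≤ 1 / ((x.1 : ℝ) * x.2) * N :=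
          mul_le_mul_of_nonneg_left (hnN _ _) hw
        have h7 : 0 ≤ ε / 2 * N * (1 / ((x.1 : ℝ) * x.2)) := by positivity
        linarith
      · have h5 : ¬ P x.1 x.2 := by rw [hP]; exact fun h => h4 h.2
        rw [if_neg h5, mul_zero, zero_add]
        have h6 := mul_le_mul_of_nonneg_left (not_le.1 h4).le hw
        linarith
    · rw [if_neg h3, zero_mul, mul_zero, add_zero]
      apply mul_nonneg hNr.le
      split_ifs <;> positivity
  have h3 : (1 / 3 - ε) * wt X r ≤ wt X P := by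
    have h4 := h1.trans h2
    have h5 : (N : ℝ) * ((1 / 3 - ε) * wt X r) ≤ N * wt X P := by
      have : (N : ℝ) * ((1 / 3 - ε / 2) * wt X r) = N * ((1 / 3 - ε) * wt X r) + ε / 2 * N * wt X r := by ring
      linarith
    exact le_of_mul_le_mul_left h5 hNr
  refine h3.trans ?_
  unfold wt
  apply Finset.sum_le_sum
  intro x hx
  have hx1 : 1 ≤ x.1 := (mem_V.1 (mem_CP.1 hx).1.1).1.1
  by_cases h4 : P x.1 x.2
  · rw [if_pos h4, if_pos]
    rw [hP] at h4
    refine ⟨h4.1, ?_⟩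
    refine le_trans ?_ (count_win C B x.1 x.2 N L hx1 hNL)
    have h5 := h4.2
    rw [hn] at h5
    refine le_trans ?_ h5
    rw [div_mul_eq_mul_div, div_le_iff₀ (by positivity)]
    calc ε * L ≤ ε * (2 * (2 * C + 1) * N) := mul_le_mul_of_nonneg_left hLN hε.le
      _ = ε / 2 * N * (4 * (2 * C + 1)) := by ring
  · rw [if_neg h4]
    split_ifs <;> positivity

end Pool.Agent.K7.H63.EI
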